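import Pool.Agent.Helper74.RN.St

set_option autoImplicit false

namespace Pool.Agent.Helper74.RN

theorem hCFM_own (hFNR : StFNR) (hCFA : StCFA) (hCFB : StCFB) (hPRS : DR.StPRS) : StCFM := by
  intro n R
  have hf := hFNR n R
  refine ⟨gM R hf, fun w => ?_⟩
  rw [ContextFreeGrammar.mem_language_iff, hPRS]
  constructor
  · rintro ⟨k, h⟩
    exact hCFB _ R hf k w h
  · intro h
    exact (hCFA _ R hf).2 w h

end Pool.Agent.Helper74.RN
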