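import Pool.Agent.Helper74.RN.St

set_option autoImplicit false

namespace Pool.Agent.Helper74.RN

theorem rnb_inv {G : Type} (R : G → G → Prop) (N : ℕ) (A : Ce G) (l : List (Ce G)) (i k : ℕ)
    (hA : ∀ x, A ≠ .a x) (h : Rn R N (A :: l) i k) :
    ∃ (d : ℤ) (j : ℕ), Sh A d ∧ i < N ∧ j < N ∧ (j : ℤ) = i + d ∧ Rn R N l j k := by
  generalize hL : A :: l = L at h
  cases h with
  | nil i => cases hL
  | one B d l' i j k hs hi hj e h' =>
    cases hL
    exact ⟨d, j, hs, hi, hj, e, h'⟩
  | two x y u v i j k _ _ _ _ _ =>
    cases hL
    exact absurd rfl (hA x)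

theorem rnb_core {G : Type} (R : G → G → Prop) (N : ℕ) (l : List (Option G)) :
    ∀ (i j : ℕ), i < N → (Rn R N (l.map a2) i j ↔
      j ≤ i ∧ i + (l.filterMap id).length ≤ j + l.length) := by
  induction l with
  | nil =>
    intro i j hi
    constructor
    · intro h
      cases h
      exact ⟨le_rfl, by simp⟩
    · rintro ⟨h1, h2⟩
      simp only [List.filterMap_nil, List.length_nil, add_zero] at h2
      have : i = j := by omega
      subst this
      exact Rn.nil _
  | cons z t ih =>
    intro i j hi
    cases z with
    | some x =>
      have e1 : (List.filterMap id (some x :: t)).length = (t.filterMap id).length + 1 := by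
        simp
      rw [e1]
      constructor
      · intro h
        obtain ⟨d, j', hs, _, hj', e, h'⟩ := rnb_inv R N (a2 (some x)) _ i j
          (fun y => by simp [a2]) h
        have hd : d = 0 := by
          change Sh Ce.c d at hs
          cases hs
          rfl
        have : j' = i := by omega
        subst this
        have := (ih _ _ hi).1 h'
        simp only [List.length_cons]
        omega
      · rintro ⟨h1, h2⟩
        simp only [List.length_cons] at h2
        exact Rn.one .c 0 _ i i j Sh.nop hi hi (by simp) ((ih i j hi).2 ⟨h1, by omega⟩)
    | none =>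
      have e1 : (List.filterMap id (none :: t)).length = (t.filterMap id).length := by
        simp
      rw [e1]
      constructor
      · intro h
        obtain ⟨d, j', hs, _, hj', e, h'⟩ := rnb_inv R N (a2 none) _ i j
          (fun y => by simp [a2]) h
        have h2 := (ih _ _ hj').1 h'
        simp only [List.length_cons]
        change Sh Ce.b d at hs
        cases hs with
        | bu => omega
        | bu0 => omega
      · rintro ⟨h1, h2⟩
        simp only [List.length_cons] at h2
        by_cases hij : j = i
        · subst hij
          exact Rn.one .b 0 _ j j j Sh.bu0 hi hi (by simp) ((ih j j hi).2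
            ⟨le_rfl, by have := List.length_filterMap_le id t; omega⟩)
        · have hlt : j < i := by omega
          exact Rn.one .b (-1) _ i (i - 1) j Sh.bu hi (by omega) (by omega)
            ((ih (i - 1) j (by omega)).2 ⟨by omega, by omega⟩)

theorem hRNB_own : StRNB := by
  intro G R N l i j hi
  rw [← rnb_core R N l i j hi]
  constructor
  · intro h
    obtain ⟨d, j', hs, _, hj', e, h'⟩ := rnb_inv R N Ce.c _ i j (fun y => by simp) h
    cases hs
    obtain ⟨d, j'', hs, _, hj'', e', h''⟩ := rnb_inv R N Ce.c _ j' j (fun y => by simp) h'
    cases hs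
    have : j'' = i := by omega
    subst this
    exact h''
  · intro h
    exact Rn.one .c 0 _ i i j Sh.nop hi hi (by simp)
      (Rn.one .c 0 _ i i j Sh.nop hi hi (by simp) h)

end Pool.Agent.Helper74.RN
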