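import Pool.Agent.Helper74.RN.Fin
import Pool.Agent.Helper74.DI.All
import Pool.Agent.Helper78.RN.M_FZR
import Pool.Agent.Helper36.RN.M_THN
import Pool.Agent.Helper94.RN.M_GMA
import Pool.Agent.Helper10.RN.M_INS
import Pool.Agent.Helper8.RN.M_SUB
import Pool.Agent.Helper90.RN.M_FCT
import Pool.Agent.Helper33.RN.M_POS
import Pool.Agent.Helper22.RN.M_MMD
import Pool.Agent.Helper29.RN.M_MMC
import Pool.Agent.Helper95.RN.M_RNF
import Pool.Agent.Helper60.RN.M_RNG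
import Pool.Agent.Helper74.RN.M_RNB
import Pool.Agent.Helper57.RN.M_RNC
import Pool.Agent.Helper73.RN.M_THU
import Pool.Agent.Helper34.RN.M_FNR
import Pool.Agent.Helper62.RN.M_CFA
import Pool.Agent.Helper81.RN.M_CFB
import Pool.Agent.Helper74.RN.M_CFM
import Pool.Agent.Helper40.RN.M_CHB
import Pool.Agent.Helper38.RN.M_CHN
import Pool.Agent.Helper76.RN.M_RDB
import Pool.Agent.Helper42.RN.M_SIV
import Pool.Agent.Helper89.RN.M_UPA
import Pool.Agent.Helper28.RN.M_CNL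
import Pool.Agent.Helper88.RN.M_COL
import Pool.Agent.Helper37.RN.M_LOW
import Pool.Agent.Helper48.RN.M_DEL
import Pool.Agent.Helper26.RN.M_MXC
import Pool.Agent.Helper9.RN.M_UPB
import Pool.Agent.Helper80.RN.M_EAS
import Pool.Agent.Helper99.RN.M_OPF
import Pool.Agent.Helper7.RN.M_PDA
import Pool.Agent.Helper53.RN.M_KKT
import Pool.Agent.Helper87.RN.M_RTA
import Pool.Agent.Helper18.RN.M_CFT
import Pool.Agent.Helper39.RN.M_CLG

/-!
# Project RN (MP_26f0da_lc): the theorem without hypotheses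
-/

set_option autoImplicit false

namespace Pool.Agent.Helper74.RN

theorem hFZR : StFZR := Pool.Agent.Helper78.RN.hFZR
theorem hTHN : StTHN := Pool.Agent.Helper36.RN.hTHN hFZR
theorem hGMA : StGMA := Pool.Agent.Helper94.RN.hGMA
theorem hINS : StINS := Pool.Agent.Helper10.RN.hINS
theorem hSUB : StSUB := Pool.Agent.Helper8.RN.hSUB hINS hFZR
theorem hFCT : StFCT := Pool.Agent.Helper90.RN.hFCT
theorem hPOS : StPOS := Pool.Agent.Helper33.RN.hPOS hFCT
theorem hMMD : StMMD := Pool.Agent.Helper22.RN.hMMD hFCT hPOS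
theorem hMMC : StMMC := Pool.Agent.Helper29.RN.hMMC
theorem hRNF : StRNF := Pool.Agent.Helper95.RN.hRNF
theorem hRNG : StRNG := Pool.Agent.Helper60.RN.hRNG
theorem hRNB : StRNB := hRNB_own
theorem hRNC : StRNC := Pool.Agent.Helper57.RN.hRNC
theorem hTHU : StTHU := Pool.Agent.Helper73.RN.hTHU hMMD hMMC hRNF hRNG hRNB hRNC
theorem hFNR : StFNR := Pool.Agent.Helper34.RN.hFNR
theorem hCFA : StCFA := Pool.Agent.Helper62.RN.hCFA
theorem hCFB : StCFB := Pool.Agent.Helper81.RN.hCFB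
theorem hCFM : StCFM := hCFM_own hFNR hCFA hCFB DR.hPRS
theorem hCHB : StCHB := Pool.Agent.Helper40.RN.hCHB
theorem hCHN : StCHN := Pool.Agent.Helper38.RN.hCHN hCHB
theorem hRDB : StRDB := Pool.Agent.Helper76.RN.hRDB
theorem hSIV : StSIV := Pool.Agent.Helper42.RN.hSIV hCHN hRDB
theorem hUPA : StUPA := Pool.Agent.Helper89.RN.hUPA hCFM hTHU hSIV DI.hHED
theorem hCNL : StCNL := Pool.Agent.Helper28.RN.hCNL
theorem hCOL : StCOL := Pool.Agent.Helper88.RN.hCOL
theorem hLOW : StLOW := Pool.Agent.Helper37.RN.hLOW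
theorem hDEL : StDEL := Pool.Agent.Helper48.RN.hDEL
theorem hMXC : StMXC := Pool.Agent.Helper26.RN.hMXC DI.hMAJ
theorem hUPB : StUPB := Pool.Agent.Helper9.RN.hUPB hDEL hMXC hSUB
theorem hEAS : StEAS := Pool.Agent.Helper80.RN.hEAS hCOL hLOW hUPB hCNL DI.hFIN DI.hINT DI.hHED
theorem hOPF : StOPF := Pool.Agent.Helper99.RN.hOPF
theorem hPDA : StPDA := Pool.Agent.Helper7.RN.hPDA WB.hREL
theorem hKKT : StKKT := Pool.Agent.Helper53.RN.hKKT hOPF hPDA hGMA DI.hQ2A DI.hQ2B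
theorem hRTA : StRTA := Pool.Agent.Helper87.RN.hRTA hKKT WB.hENC WB.hREL
theorem hCFT : StCFT := Pool.Agent.Helper18.RN.hCFT DR.hNFM WB.hSIM WB.hCNT
theorem hCLG : StCLG := Pool.Agent.Helper39.RN.hCLG

theorem main_all :
    ((∀ (α : Type) [Fintype α] (g : ContextFreeGrammar α), DR.InL {w | w ∈ g.language}) →
      ∀ (n : ℕ) (R : Fin n → Fin n → Prop), DR.InL (TH R)) ∧
    ∀ (n : ℕ) (Γ : SimpleGraph (Fin n)),
      (CM Γ → DR.InL (TH Γ.Adj)) ∧
      (¬ CM Γ →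
        (∀ (α : Type) [Fintype α] (g : ContextFreeGrammar α),
          ∃ (u : List (Option (Fin n))) (h : α → List (Option (Fin n))), (∀ a, h a ≠ []) ∧
            ∀ w : List α, w ≠ [] → (w ∈ g.language ↔ u ++ w.flatMap h ∈ TH Γ.Adj)) ∧
        ((∀ (α : Type) [Fintype α] (g : ContextFreeGrammar α), DR.InL {w | w ∈ g.language}) ↔
          DR.InL (TH Γ.Adj))) :=
  main hTHN hUPA hEAS hRTA hCFT hCLG DI.hCLS DI.hHT1 DI.hHT2 DI.hHT3 DI.hTPR DI.hCFR DR.hAUB
    DR.hAUE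

end Pool.Agent.Helper74.RN
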