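import Pool.Agent.Helper74.DI.Base
import Pool.Agent.Helper74.DR.Base

/-!
# Noncrossing matchings with unmatched letters (RNA folding): definitions
-/

set_option autoImplicit false

namespace Pool.Agent.Helper74.RN

/-- `Fo R w k`: the positions of the word `w` have a noncrossing matching such that `R x y` for the
letters `x`, `y` of every matched pair (`x` to the left of `y`) and exactly `k` positions are not
matched. -/
inductive Fo {G : Type} (R : G → G → Prop) : List G → ℕ → Prop
  | nil : Fo R [] 0
  | skip (x : G) (w : List G) (k : ℕ) : Fo R w k → Fo R (x :: w) (k + 1)
  | wrap (x y : G) (u v : List G) (j k : ℕ) : R x y → Fo R u j → Fo R v k →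
      Fo R (x :: (u ++ y :: v)) (j + k)

/-- The threshold language: words of letters `some x` and signs `none` such that the word of the
letters (the signs are removed) has a noncrossing matching of related letters in which at most as many
letters are not matched as there are signs. -/
def TH {G : Type} (R : G → G → Prop) : Set (List (Option G)) :=
  {w | ∃ k, Fo R (w.filterMap id) k ∧ k + (w.filterMap id).length ≤ w.length}

/-- The non-isolated vertices of `Γ` induce a complete multipartite graph: every such vertex is
adjacent to an end of every edge. -/
def CM {G : Type} (Γ : SimpleGraph G) : Prop :=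
  ∀ x y z : G, Γ.Adj x y → (∃ t, Γ.Adj z t) → Γ.Adj z x ∨ Γ.Adj z y

end Pool.Agent.Helper74.RN
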