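import Pool.Agent.Helper74.RN.Base
import Pool.Agent.Helper74.DI.DefsM

/-!
# Project RN (MP_26f0da_lc): definitions and simple facts

THEOREM (dichotomy for RNA folding).  Let `Γ` be a finite simple graph on the letters (the pairs which
may be formed).  `TH Γ.Adj`: the words `w` of letters and signs such that the letters have a
noncrossing matching of adjacent letters in which at most as many letters as there are signs are not
matched.  If the non-isolated vertices of `Γ` induce a complete multipartite graph then `TH Γ.Adj` is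
in `L`.  Otherwise every context-free language is reduced to `TH Γ.Adj` by `w ↦ u h(w)`, and all
context-free languages are in `L` if and only if `TH Γ.Adj` is in `L`.
-/

set_option autoImplicit false

namespace Pool.Agent.Helper74.RN

open Pool.Agent.Helper74.NM (NC)
open Pool.Agent.Helper74.WB (OP QW rl enc iv)
open Pool.Agent.Helper74.DI (q2 sth InH Rch)

/-! ### The upper bound: cells -/

/-- The cells: an action `a x` (the letter `x`), `b` (a sign), `c` (nothing), and the separator `s`. -/
inductive Ce (G : Type) : Type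
  | a (x : G) : Ce G
  | b : Ce G
  | c : Ce G
  | s : Ce G

section

variable {G : Type}

/-- First pass: letters are active. -/
def a1 : Option G → Ce G
  | some x => .a x
  | none => .c

/-- Second pass: signs are active. -/
def a2 : Option G → Ce G
  | some _ => .c
  | none => .b

/-- The block of the action `A`. -/
def bk (N : ℕ) (A : Ce G) : List (Ce G) :=
  List.replicate N A ++ (.s :: (List.replicate N .c ++ [.s]))

/-- The actions of a word. -/
def acts (w : List (Option G)) : List (Ce G) := w.map a1 ++ (.c :: .c :: w.reverse.map a2)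

/-- The word of cells of a word. -/
def Wd (w : List (Option G)) : List (Ce G) := .s :: (acts w).flatMap (bk (w.length + 2))

/-- There is no separator in `p`. -/
def ns (p : List (Ce G)) : Prop := ∀ z ∈ p, z ≠ .s

/-- Words `p s q` with `|p| = |q| + d`. -/
def Ed (d : ℤ) (w : List (Ce G)) : Prop :=
  ∃ p q : List (Ce G), w = p ++ .s :: q ∧ ns p ∧ ns q ∧ (p.length : ℤ) = q.length + d

/-- The changes of the counter. -/
inductive Sh : Ce G → ℤ → Prop
  | nop : Sh .c 0
  | un (x : G) : Sh (.a x) 1
  | bu : Sh .b (-1)
  | bu0 : Sh .b 0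

/-- The context-free language of the words of cells. -/
inductive MM (R : G → G → Prop) : List (Ce G) → Prop
  | e (w : List (Ce G)) : Ed 0 w → MM R w
  | one (A : Ce G) (d : ℤ) (w₀ w₁ : List (Ce G)) (f : Ce G) (w₂ : List (Ce G)) : Sh A d →
      Ed 0 w₀ → Ed d w₁ → f ≠ .s → MM R w₂ → MM R (w₀ ++ A :: (w₁ ++ f :: w₂))
  | two (x y : G) (w₀ w₁ : List (Ce G)) (f : Ce G) (m w₃ : List (Ce G)) (f' : Ce G)
      (m' : List (Ce G)) : R x y → Ed 0 w₀ → Ed 0 w₁ → f ≠ .s → MM R m → Ed 0 w₃ → f' ≠ .s →
      MM R m' → MM R (w₀ ++ .a x :: (w₁ ++ f :: (m ++ .a y :: (w₃ ++ f' :: m'))))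

/-- The runs: a word of actions is read, a counter with values less than `N` changes from `i` to `j`. -/
inductive Rn (R : G → G → Prop) (N : ℕ) : List (Ce G) → ℕ → ℕ → Prop
  | nil (i : ℕ) : Rn R N [] i i
  | one (A : Ce G) (d : ℤ) (l : List (Ce G)) (i j k : ℕ) : Sh A d → i < N → j < N →
      (j : ℤ) = i + d → Rn R N l j k → Rn R N (A :: l) i k
  | two (x y : G) (u v : List (Ce G)) (i j k : ℕ) : R x y → i < N → j < N →
      Rn R N u i j → Rn R N v j k → Rn R N (.a x :: (u ++ .a y :: v)) i k

theorem ns_nil : ns ([] : List (Ce G)) := by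
  intro z hz
  simp at hz

theorem ns_append (p q : List (Ce G)) : ns (p ++ q) ↔ ns p ∧ ns q := by
  simp only [ns, List.mem_append]
  constructor
  · intro h
    exact ⟨fun z hz => h z (Or.inl hz), fun z hz => h z (Or.inr hz)⟩
  · rintro ⟨h1, h2⟩ z (hz | hz)
    · exact h1 z hz
    · exact h2 z hz

theorem ns_cons (z : Ce G) (p : List (Ce G)) : ns (z :: p) ↔ z ≠ .s ∧ ns p := by
  simp [ns]

theorem ns_replicate (n : ℕ) (A : Ce G) (h : A ≠ .s) : ns (List.replicate n A) := by
  intro z hz
  rw [List.eq_of_mem_replicate hz]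
  exact h

theorem sh_ne (A : Ce G) (d : ℤ) (h : Sh A d) : A ≠ .s := by
  cases h <;> simp

/-- The separator occurs in every word of `Ed d`. -/
theorem ed_mem (d : ℤ) (w : List (Ce G)) (h : Ed d w) : Ce.s ∈ w := by
  obtain ⟨p, q, rfl, _⟩ := h
  simp

theorem fo_le (R : G → G → Prop) (w : List G) (k : ℕ) (h : Fo R w k) : k ≤ w.length := by
  induction h with
  | nil => simp
  | skip x w k _ ih => simpa using ih
  | wrap x y u v j k _ _ _ ih1 ih2 =>
    simp only [List.length_cons, List.length_append]
    omega

/-! ### The grammar -/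

/-- Nonterminals: `M` for `MM`, `E d` for `Ed (d - 1)`. -/
inductive Nt : Type
  | M : Nt
  | E (d : Fin 3) : Nt

/-- The rules of the grammar of `MM R`. -/
inductive Rl (R : G → G → Prop) : ContextFreeRule (Ce G) Nt → Prop
  | e0 : Rl R ⟨.E 1, [.terminal .s]⟩
  | e1 (x y : Ce G) : x ≠ .s → y ≠ .s →
      Rl R ⟨.E 1, [.terminal x, .nonterminal (.E 1), .terminal y]⟩
  | e2 (x : Ce G) : x ≠ .s → Rl R ⟨.E 2, [.terminal x, .nonterminal (.E 1)]⟩
  | e3 (y : Ce G) : y ≠ .s → Rl R ⟨.E 0, [.nonterminal (.E 1), .terminal y]⟩
  | m0 : Rl R ⟨.M, [.nonterminal (.E 1)]⟩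
  | m1 (A : Ce G) (d : Fin 3) (f : Ce G) : Sh A ((d.val : ℤ) - 1) → f ≠ .s →
      Rl R ⟨.M, [.nonterminal (.E 1), .terminal A, .nonterminal (.E d), .terminal f,
        .nonterminal .M]⟩
  | m2 (x y : G) (f f' : Ce G) : R x y → f ≠ .s → f' ≠ .s →
      Rl R ⟨.M, [.nonterminal (.E 1), .terminal (.a x), .nonterminal (.E 1), .terminal f,
        .nonterminal .M, .terminal (.a y), .nonterminal (.E 1), .terminal f', .nonterminal .M]⟩

/-- The grammar of `MM R`. -/
noncomputable def gM (R : G → G → Prop) (h : {r | Rl R r}.Finite) : ContextFreeGrammar (Ce G) :=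
  ⟨Nt, .M, h.toFinset⟩

/-- The words of a nonterminal. -/
def Va (R : G → G → Prop) : Nt → List (Ce G) → Prop
  | .M => MM R
  | .E d => Ed ((d.val : ℤ) - 1)

end

/-! ### The virtual tape -/

/-- Kinds of places of the virtual tape: the left end, and `k p j`: `p` is `true` in the first pass;
`j`: `0` first part of a block, `1` its separator, `2` second part, `3` the last separator. -/
inductive Ki : Type
  | L : Ki
  | k (p : Bool) (j : Fin 4) : Ki

/-- Places: kind, head `I` (the letter), head `T` (the place in the block). -/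
abbrev Cd : Type := Ki × ℕ × ℕ

section

variable {G : Type}

/-- What a head at the place `p` reads. -/
def rp {α : Type} (w : List α) (p : ℕ) : Bool × Option α := (decide (p = 0), w[p - 1]?)

/-- What the virtual head reads. -/
def vr : Ki → Bool × Option (Option G) → Bool × Option (Option G) → Bool × Option (Ce G)
  | .L, _, _ => (true, some .s)
  | .k true 0, ri, _ => (false, some (match ri.2 with
    | some o => a1 o
    | none => .c))
  | .k false 0, ri, _ => if ri.1 then (false, none) else (false, some (match ri.2 with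
    | some o => a2 o
    | none => .c))
  | .k _ 1, _, _ => (false, some .s)
  | .k _ 2, _, _ => (false, some .c)
  | .k _ 3, _, _ => (false, some .s)

/-- Is it the right endmarker? -/
def re {α : Type} (r : Bool × Option α) : Bool := !r.1 && r.2.isNone

/-- One step to the right: new kind, moves of `I` and `T` (`0` left, `1` stay, `2` right). -/
def nx : Ki → Bool × Option (Option G) → Bool × Option (Option G) → Ki × Fin 3 × Fin 3
  | .L, _, _ => (.k true 3, 1, 1)
  | .k p 0, ri, rt => if !p && ri.1 then (.k p 0, 1, 1) else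
      if re rt then (.k p 1, 1, 1) else (.k p 0, 1, 2)
  | .k p 1, _, _ => (.k p 2, 1, 1)
  | .k p 2, _, rt => if rt.1 then (.k p 3, 1, 1) else (.k p 2, 1, 0)
  | .k true 3, ri, _ => if re ri then (.k false 0, 1, 1) else (.k true 0, 2, 1)
  | .k false 3, _, _ => (.k false 0, 0, 1)

/-- One step to the left. -/
def pv : Ki → Bool × Option (Option G) → Bool × Option (Option G) → Ki × Fin 3 × Fin 3
  | .L, _, _ => (.L, 1, 1)
  | .k p 0, ri, rt => if rt.1 then (if p then (.k true 3, 0, 1) else
      if re ri then (.k true 3, 1, 1) else (.k false 3, 2, 1)) else (.k p 0, 1, 0)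
  | .k p 1, _, _ => (.k p 0, 1, 1)
  | .k p 2, _, rt => if re rt then (.k p 1, 1, 1) else (.k p 2, 1, 2)
  | .k p 3, ri, _ => if p && ri.1 then (.L, 1, 1) else (.k p 2, 1, 1)

/-- A head moves on a tape of length `n`. -/
def mv (n p : ℕ) (d : Fin 3) : ℕ := if d = 0 then p - 1 else if d = 1 then p else min (p + 1) (n + 1)

/-- One step to the right on the virtual tape. -/
def stR (w : List (Option G)) (c : Cd) : Cd :=
  ((nx c.1 (rp w c.2.1) (rp w c.2.2)).1,
    mv w.length c.2.1 (nx c.1 (rp w c.2.1) (rp w c.2.2)).2.1,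
    mv w.length c.2.2 (nx c.1 (rp w c.2.1) (rp w c.2.2)).2.2)

/-- One step to the left on the virtual tape. -/
def stL (w : List (Option G)) (c : Cd) : Cd :=
  ((pv c.1 (rp w c.2.1) (rp w c.2.2)).1,
    mv w.length c.2.1 (pv c.1 (rp w c.2.1) (rp w c.2.2)).2.1,
    mv w.length c.2.2 (pv c.1 (rp w c.2.1) (rp w c.2.2)).2.2)

/-- The places of a block (`N = m + 2` cells, `m` the length of the word). -/
def cb (m : ℕ) (p : Bool) (i : ℕ) : List Cd :=
  (List.range (m + 2)).map (fun t => (.k p 0, i, t)) ++ ((.k p 1, i, m + 1) ::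
    ((List.range (m + 2)).map (fun t => (.k p 2, i, m + 1 - t)) ++ [(.k p 3, i, 0)]))

/-- The places between the two ends. -/
def Cm (m : ℕ) : List Cd := (.k true 3, 0, 0) ::
  ((List.range (m + 1)).flatMap (fun i => cb m true (i + 1)) ++
    (List.range (m + 1)).flatMap (fun i => cb m false (m + 1 - i)))

/-- All places of the virtual tape. -/
def Cl (m : ℕ) : List Cd := (.L, 0, 0) :: (Cm m ++ [(.k false 0, 0, 0)])

/-- Neighbours are connected by the two steps. -/
def Chn (w : List (Option G)) : List Cd → Prop
  | [] => True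
  | [_] => True
  | c :: c' :: l => (stR w c = c' ∧ stL w c' = c) ∧ Chn w (c' :: l)

theorem chn_append (w : List (Option G)) (l : List Cd) (c : Cd) (l' : List Cd)
    (h : Chn w (l ++ [c])) (h' : Chn w (c :: l')) : Chn w (l ++ c :: l') := by
  induction l with
  | nil => exact h'
  | cons a l ih =>
    cases l with
    | nil => exact ⟨h.1, h'⟩
    | cons b l => exact ⟨h.1, ih h.2⟩

theorem chn_get (w : List (Option G)) (l : List Cd) (h : Chn w l) (i : ℕ) (c c' : Cd)
    (h1 : l[i]? = some c) (h2 : l[i + 1]? = some c') : stR w c = c' ∧ stL w c' = c := by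
  induction l generalizing i with
  | nil => simp at h1
  | cons a l ih =>
    cases l with
    | nil => simp at h2
    | cons b l =>
      cases i with
      | zero =>
        simp only [List.getElem?_cons_zero, Option.some.injEq] at h1
        simp only [zero_add, List.getElem?_cons_succ, List.getElem?_cons_zero,
          Option.some.injEq] at h2
        subst h1
        subst h2
        exact h.1
      | succ i => exact ih h.2 i (by simpa using h1) (by simpa using h2)

end

/-! ### The automaton on the virtual tape -/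

section

variable {G Q H : Type}

/-- One move of a virtual head. -/
def mo (d : Fin 3) (κ : Ki) (ri rt : Bool × Option (Option G)) : Ki × Fin 3 × Fin 3 :=
  if d = 0 then pv κ ri rt else if d = 1 then (κ, 1, 1) else nx κ ri rt

/-- The automaton: every head `h` of `δ` becomes two heads `(h, true)` (`I`) and `(h, false)` (`T`). -/
def dv (δ : Q → (H → Bool × Option (Ce G)) → Q × (H → Fin 3)) (q : Q × (H → Ki))
    (rd : H × Bool → Bool × Option (Option G)) : (Q × (H → Ki)) × (H × Bool → Fin 3) :=
  let o := δ q.1 (fun h => vr (q.2 h) (rd (h, true)) (rd (h, false)))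
  ((o.1, fun h => (mo (o.2 h) (q.2 h) (rd (h, true)) (rd (h, false))).1),
    fun h => if h.2 then (mo (o.2 h.1) (q.2 h.1) (rd (h.1, true)) (rd (h.1, false))).2.1
      else (mo (o.2 h.1) (q.2 h.1) (rd (h.1, true)) (rd (h.1, false))).2.2)

end

/-! ### Complete multipartite graphs -/

section

variable {G : Type}

/-- Active letters of different colours. -/
def Rc (act : G → Bool) (col : G → ℕ) (x y : G) : Prop :=
  act x = true ∧ act y = true ∧ col x ≠ col y

end

/-! ### Hardness -/

section

variable {Λ G : Type}

/-- The number of negative letters. -/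
def ng (v : List ((Λ × Bool) × Bool)) : ℕ := v.countP fun a => !a.1.2

/-- All labels are increased; after every demand there is a supply with the label `0`. -/
def pd (a : (ℕ × Bool) × Bool) : List ((ℕ × Bool) × Bool) :=
  ((a.1.1 + 1, a.1.2), a.2) :: (if a.1.2 then [] else [((0, true), true)])

/-- The word of letters and signs of a letter. -/
def kk (g : Bool × Bool → G) (a : (ℕ × Bool) × Bool) : List (Option G) :=
  ((pd a).flatMap q2).map (fun b => some (g b.1)) ++ (if a.1.2 then [none] else [])

/-- All words with optional letters are reduced to `TH R`. -/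
def RedT (R : G → G → Prop) : Prop := ∀ (Λ : Type) [Countable Λ],
  ∃ k : ((Λ × Bool) × Bool) → List (Option G),
    (∀ a, k a ≠ []) ∧ ∀ w : List ((Λ × Bool) × Bool), OP w ↔ w.flatMap k ∈ TH R

/-- Two separate edges. -/
def T2K (R : G → G → Prop) : Prop := ∃ x y z t : G, R x y ∧ R z t ∧ ¬ R x z ∧ ¬ R x t ∧
  ¬ R y z ∧ ¬ R y t

end

end Pool.Agent.Helper74.RN
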