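import Pool.Agent.Helper74.RN.St

/-!
# Project RN (MP_26f0da_lc): the final assembly
-/

set_option autoImplicit false

namespace Pool.Agent.Helper74.RN

open Pool.Agent.Helper74.NM (NC)
open Pool.Agent.Helper74.WB (OP QW rl enc iv)
open Pool.Agent.Helper74.DI (Three One)

/-- Two separate edges: the letters of two labels. -/
theorem t2k_map {G : Type} (Γ : SimpleGraph G) (h : T2K Γ.Adj) :
    ∃ g : Bool × Bool → G, ∀ a b, Γ.Adj (g a) (g b) ↔ b = iv a := by
  obtain ⟨x, y, z, t, hxy, hzt, hxz, hxt, hyz, hyt⟩ := h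
  have hyx := hxy.symm
  have htz := hzt.symm
  have hzx : ¬ Γ.Adj z x := fun e => hxz e.symm
  have htx : ¬ Γ.Adj t x := fun e => hxt e.symm
  have hzy : ¬ Γ.Adj z y := fun e => hyz e.symm
  have hty : ¬ Γ.Adj t y := fun e => hyt e.symm
  refine ⟨fun p => if p.1 then (if p.2 then x else y) else (if p.2 then z else t), ?_⟩
  rintro ⟨a1, a2⟩ ⟨b1, b2⟩
  cases a1 <;> cases a2 <;> cases b1 <;> cases b2 <;>
    simp [iv, hxy, hyx, hzt, htz, hxz, hxt, hyz, hyt, hzx, htx, hzy, hty]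

/-- The reductions of all context-free languages if `Γ` is not complete multipartite. -/
theorem hard (hTHN : StTHN) (hRTA : StRTA) (hCFT : StCFT) (hCLG : StCLG)
    (hCLS : DI.StCLS) (hHT1 : DI.StHT1) (hHT2 : DI.StHT2) (hHT3 : DI.StHT3) (hTPR : DI.StTPR)
    (hCFR : DI.StCFR) (G : Type) (Γ : SimpleGraph G) (hn : ¬ CM Γ) :
    ∀ (α : Type) [Finite α] (g : ContextFreeGrammar α),
      ∃ (u : List (Option G)) (h : α → List (Option G)), u ≠ [] ∧ (∀ a, h a ≠ []) ∧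
        ∀ w : List α, w ≠ [] → (w ∈ g.language ↔ u ++ w.flatMap h ∈ TH Γ.Adj) := by
  have hR : ∀ x y, Γ.Adj x y → Γ.Adj y x := fun x y e => e.symm
  intro α _ g
  rcases hCLG G Γ hn with ⟨h3, h1⟩ | h2
  · have hr : DI.Red2 Γ.Adj := by
      rcases hCLS G Γ.Adj hR h3 h1 with h | h | h
      · exact hHT1 _ _ hR h
      · exact hHT2 _ _ hR h
      · exact hHT3 _ _ hR h
    obtain ⟨u, h, hu, hh, hw⟩ := hCFR G Γ.Adj (hTPR _ _ hr) α g
    refine ⟨u.map some, fun a => (h a).map some, ?_, ?_, ?_⟩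
    · simpa using hu
    · intro a
      simpa using hh a
    · intro w hne
      rw [hw w hne, ← hTHN G Γ.Adj (u ++ w.flatMap h)]
      have e : u.map some ++ (w.flatMap fun a => (h a).map some) =
          (u ++ w.flatMap h).map some := by
        rw [List.map_append, List.map_flatMap]
      rw [e]
  · exact hCFT G Γ.Adj (hRTA G Γ.Adj (t2k_map Γ h2)) α g

theorem main (hTHN : StTHN) (hUPA : StUPA) (hEAS : StEAS) (hRTA : StRTA) (hCFT : StCFT)
    (hCLG : StCLG) (hCLS : DI.StCLS) (hHT1 : DI.StHT1) (hHT2 : DI.StHT2) (hHT3 : DI.StHT3)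
    (hTPR : DI.StTPR) (hCFR : DI.StCFR) (hAUB : DR.StAUB) (hAUE : DR.StAUE) :
    ((∀ (α : Type) [Fintype α] (g : ContextFreeGrammar α), DR.InL {w | w ∈ g.language}) →
      ∀ (n : ℕ) (R : Fin n → Fin n → Prop), DR.InL (TH R)) ∧
    ∀ (n : ℕ) (Γ : SimpleGraph (Fin n)),
      (CM Γ → DR.InL (TH Γ.Adj)) ∧
      (¬ CM Γ →
        (∀ (α : Type) [Fintype α] (g : ContextFreeGrammar α),
          ∃ (u : List (Option (Fin n))) (h : α → List (Option (Fin n))), (∀ a, h a ≠ []) ∧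
            ∀ w : List α, w ≠ [] → (w ∈ g.language ↔ u ++ w.flatMap h ∈ TH Γ.Adj)) ∧
        ((∀ (α : Type) [Fintype α] (g : ContextFreeGrammar α), DR.InL {w | w ∈ g.language}) ↔
          DR.InL (TH Γ.Adj))) := by
  refine ⟨hUPA, fun n Γ => ⟨hEAS n Γ, fun hn => ?_⟩⟩
  have red := hard hTHN hRTA hCFT hCLG hCLS hHT1 hHT2 hHT3 hTPR hCFR (Fin n) Γ hn
  refine ⟨?_, fun hQ => hUPA hQ n Γ.Adj, ?_⟩
  · intro α _ g
    obtain ⟨u, h, _, hh, hw⟩ := red α g
    exact ⟨u, h, hh, hw⟩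
  · intro hL α _ g
    obtain ⟨u, h, hu, hh, hw⟩ := red α g
    have h1 := hAUB α _ (TH Γ.Adj) u [] h hu hh hL
    refine hAUE α _ _ (fun w hne => ?_) h1
    simp only [Set.mem_ofPred_eq, List.append_nil]
    exact (hw w hne).symm

end Pool.Agent.Helper74.RN
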