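import Pool.Agent.Helper74.RN.Defs
import Pool.Agent.Helper74.DI.StM
import Pool.Agent.Helper74.DI.St
import Pool.Agent.Helper74.DR.St

/-!
# Project RN (MP_26f0da_lc): module statements

THEOREM (dichotomy for RNA folding).  Let `Γ` be a simple graph on `Fin n`.  `TH Γ.Adj`: the words of
letters and signs such that the letters have a noncrossing matching of adjacent letters with at most
as many unmatched letters as there are signs.  If the non-isolated vertices of `Γ` induce a complete
multipartite graph (`CM Γ`) then `TH Γ.Adj` is in `L`.  Otherwise every context-free language is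
reduced to `TH Γ.Adj` by `w ↦ u h(w)`, and all context-free languages are in `L` iff `TH Γ.Adj` is.

Plan.  Part 1: general facts.  Part 2: `TH R` is reduced to a context-free language (counters coded by
places in blocks).  Part 3: automata on the coded word.  Part 4: complete multipartite graphs.
Part 5: hardness.  All definitions are in `Pool/Agent/Helper74/RN/Base.lean` and `Defs.lean`; the lemmas
there may be used (`ns_nil`, `ns_append`, `ns_cons`, `ns_replicate`, `sh_ne`, `ed_mem`, `fo_le`,
`chn_append`, `chn_get`).  For each `StX` the module proves `theorem hX : StX` from the listed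
statements.
-/

set_option autoImplicit false

namespace Pool.Agent.Helper74.RN

open Pool.Agent.Helper74.NM (NC)
open Pool.Agent.Helper74.WB (OP QW rl enc iv)
open Pool.Agent.Helper74.DI (q2 sth InH Rch)

/-! ## Part 1: general facts -/

/-- FZR (about 30 lines).  No unmatched letters.

Proof.  (→) Induction on `Fo R w k` with the hypothesis `k = 0` (`skip` is impossible; `wrap`: `j = k = 0`).
(←) Induction on `NC R w`, `Fo.wrap` with `j = k = 0`.  Hypotheses: none. -/
def StFZR : Prop := ∀ (G : Type) (R : G → G → Prop) (w : List G), Fo R w 0 ↔ NC R w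

/-- THN (about 30 lines).  Words without signs.

Proof.  `(l.map some).filterMap id = l`, so `k + l.length ≤ l.length`, `k = 0`: hFZR.  Hypotheses: hFZR. -/
def StTHN : Prop := ∀ (G : Type) (R : G → G → Prop) (l : List G), l.map some ∈ TH R ↔ NC R l

/-- GMA (about 50 lines).  Images.

Proof.  (→) Induction on `Fo S l k` (`List.map_cons`, `List.map_append`).  (←) Induction on `Fo R z k` for
all `l` with `z = l.map g` (`List.map_eq_cons_iff`, `List.map_eq_append_iff`; `eq_comm`).
Hypotheses: none. -/
def StGMA : Prop := ∀ (G G' : Type) (S : G → G → Prop) (R : G' → G' → Prop) (g : G → G'),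
  (∀ a b, R (g a) (g b) ↔ S a b) → ∀ (l : List G) (k : ℕ), Fo S l k ↔ Fo R (l.map g) k

/-- INS (about 50 lines).  Insertion of an unmatched letter.

Proof.  Induction on `Fo R z k` for all `u`, `v` with `z = u ++ v`.  If `u = []`: `Fo.skip`.  `skip y w k`:
`u = y :: u'`, `w = u' ++ v`: induction and `Fo.skip`.  `wrap y y' p q i j`: `u = y :: u'` and
`u' ++ v = p ++ y' :: q` (`List.append_eq_append_iff`): either `p = u' ++ p'`, `v = p' ++ y' :: q`: induction for
`p`, `Fo.wrap` (`(i + 1) + j = i + j + 1`); or `u' = p ++ y' :: u''`, `q = u'' ++ v`: induction for `q`.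
Hypotheses: none. -/
def StINS : Prop := ∀ (G : Type) (R : G → G → Prop) (u v : List G) (x : G) (k : ℕ),
  Fo R (u ++ v) k → Fo R (u ++ x :: v) (k + 1)

/-- SUB (about 40 lines).  Sublists.

Proof.  Claim: for all `p` and `l'` a sublist of `l`, `Fo R (p ++ l') k` implies
`Fo R (p ++ l) (k + (l.length - l'.length))`, or better: there is `j` with `j + l'.length = l.length` and
`Fo R (p ++ l) (k + j)`.  Induction on the sublist relation: `cons x`: induction, then hINS.  `cons₂ x`:
induction with `p ++ [x]`.  Then `p = []`, `k = 0`, hFZR.  Hypotheses: hINS hFZR. -/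
def StSUB : Prop := ∀ (G : Type) (R : G → G → Prop) (l' l : List G), l'.Sublist l → NC R l' →
  ∃ j, j + l'.length = l.length ∧ Fo R l j

/-! ## Part 2: reduction to a context-free language -/

/-- FCT (about 60 lines).  Words with separators.

Proof.  (1) Induction on `p` for all `p'`: `p = []`: if `p' = z :: ..` then `z = s`, impossible.  `p = z :: p₁`: `p' = []` is
impossible in the same way.  (2) Induction on `q` for all `N`.  `q = []`: `N = 0`: `B = s`, impossible;
`N + 1`: `B = A`, `Y = A^N ++ s :: X`.  `q = z :: q'`: `N = 0`: `z = s`, impossible; `N + 1`: `z = A`, induction.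
Hypotheses: none. -/
def StFCT : Prop := ∀ (G : Type),
  (∀ p p' X Y : List (Ce G), ns p → ns p' → p ++ .s :: X = p' ++ .s :: Y → p = p' ∧ X = Y) ∧
  (∀ (A B : Ce G) (N : ℕ) (X q Y : List (Ce G)), A ≠ .s → B ≠ .s → ns q →
    List.replicate N A ++ .s :: X = q ++ B :: Y →
    q = List.replicate q.length A ∧ q.length < N ∧ B = A ∧
      Y = List.replicate (N - 1 - q.length) A ++ .s :: X)

/-- POS (about 120 lines).  The position of a letter.

Proof.  Fact: if no element of `P` is `a y` and `P ++ Z = m ++ a y :: X` then `m = P ++ m₁`,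
`Z = m₁ ++ a y :: X` for some `m₁` (`List.append_eq_append_iff`).  Induction on `l` for all `r`, `m`.  The fact with
`P = r ++ [s]`: `m = r ++ s :: m₁`, `l.flatMap (bk N) ++ q = m₁ ++ a y :: X`.  `l = []`: `s ∈ X` and `X` is an end of
`q`: contradiction to `ns q`.  `l = B :: l'`: the word is `B^N ++ s :: (c^N ++ s :: (l'.flatMap (bk N) ++ q))`.
If `m₁.length < N` then `m₁ = B^t`, `t = m₁.length`, `B = a y`, `X = B^(N - 1 - t) ++ s :: ..` (hFCT (2), or
directly): `u = []`, `v = l'`.  Otherwise `m₁ = B^N ++ m₂`, `s :: (c^N ++ ..) = m₂ ++ a y :: X`, `m₂ = s :: m₃`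
and the induction hypothesis for `r = c^N`, `m₃`, gives `u'`, `v`, `t`; `u = B :: u'`.
Hypotheses: hFCT. -/
def StPOS : Prop := ∀ (G : Type) (N : ℕ) (y : G) (l q m X r : List (Ce G)), ns l → ns q →
  (∀ z ∈ r, z = Ce.c) → Ce.s ∈ X → r ++ .s :: (l.flatMap (bk N) ++ q) = m ++ .a y :: X →
  ∃ (u v : List (Ce G)) (t : ℕ), l = u ++ .a y :: v ∧ t < N ∧
    m = r ++ .s :: (u.flatMap (bk N) ++ List.replicate t (.a y)) ∧
    X = List.replicate (N - 1 - t) (.a y) ++
      .s :: (List.replicate N .c ++ .s :: (v.flatMap (bk N) ++ q))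

/-- MMD (about 130 lines).  From `MM` to runs.

Proof.  Induction on `MM R w`, for all `l`, `p`, `q`.
`e`: `w = p' ++ s :: q'`, hFCT (1): `p = p'`, `l.flatMap (bk N) ++ q = q'` has no separator, so `l = []` (`bk N A`
contains `s`), `q = q'`, `p.length = q.length`: `Rn.nil`.
`one A d w₀ w₁ f w₂`: `w₀ = p₀ ++ s :: q₀`, `p₀.length = q₀.length`; hFCT (1): `p₀ = p` and
`l.flatMap (bk N) ++ q = q₀ ++ A :: (w₁ ++ f :: w₂)`.  `l = []` is impossible because `s ∈ w₁` (`ed_mem`).  `l = B :: l'`:
the left side is `B^N ++ s :: (c^N ++ s :: Z)`, `Z = l'.flatMap (bk N) ++ q`; hFCT (2): `i = q₀.length < N`, `A = B`,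
`w₁ ++ f :: w₂ = A^(N-1-i) ++ s :: (c^N ++ s :: Z)`.  `w₁ = p₁ ++ s :: q₁`: hFCT (1): `p₁ = A^(N-1-i)`,
`q₁ ++ f :: w₂ = c^N ++ s :: Z`; hFCT (2): `q₁.length < N`, `w₂ = c^(N-1-q₁.length) ++ s :: Z`.
`N - 1 - i = q₁.length + d`, so `j = N - 1 - q₁.length = i + d`.  Induction hypothesis for `l'`, `c^j`, `q`:
`Rn.one`.
`two x y w₀ w₁ f m w₃ f' m'`: in the same way (`A = a x`, `d = 0`, `j = i`):
`m ++ a y :: (w₃ ++ f' :: m') = c^i ++ s :: (l'.flatMap (bk N) ++ q)`; hPOS (`s ∈ w₃`): `l' = u ++ a y :: v`, `t < N`,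
`m = c^i ++ s :: (u.flatMap (bk N) ++ (a y)^t)`, `w₃ ++ f' :: m' = (a y)^(N-1-t) ++ s :: (c^N ++ s :: ..)`.
Induction hypothesis for `m`: `Rn u i t`.  As before `m' = c^t ++ s :: (v.flatMap (bk N) ++ q)`: `Rn v t q.length`:
`Rn.two`.  (`ns` of the parts: `ns_append`, `ns_cons`, `ns_replicate`.)  Hypotheses: hFCT hPOS. -/
def StMMD : Prop := ∀ (G : Type) (R : G → G → Prop) (N : ℕ) (w : List (Ce G)), MM R w →
  ∀ l p q : List (Ce G), ns l → ns p → ns q → w = p ++ .s :: (l.flatMap (bk N) ++ q) →
    Rn R N l p.length q.length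

/-- MMC (about 120 lines).  From runs to `MM`.

Proof.  Induction on `Rn R N l i k`, for all `p`, `q`.  `nil`: `MM.e`.  `one A d l i j k`: the word is
`p ++ s :: (A^N ++ s :: (c^N ++ s :: (l.flatMap (bk N) ++ q)))`; `w₀ = p ++ s :: A^i`,
`w₁ = A^(N-1-i) ++ s :: c^(N-1-j)`, `f = c`, `w₂ = c^j ++ s :: (l.flatMap (bk N) ++ q)`
(`A^N = A^i ++ A :: A^(N-1-i)`, `c^N = c^(N-1-j) ++ c :: c^j`: `List.replicate_add` or similar).
`two x y u v i j k`: `w₀ = p ++ s :: (a x)^i`, `w₁ = (a x)^(N-1-i) ++ s :: c^(N-1-i)`, `f = c`,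
`m = c^i ++ s :: (u.flatMap (bk N) ++ (a y)^j)`, `w₃ = (a y)^(N-1-j) ++ s :: c^(N-1-j)`, `f' = c`,
`m' = c^j ++ s :: (v.flatMap (bk N) ++ q)`.  Hypotheses: none. -/
def StMMC : Prop := ∀ (G : Type) (R : G → G → Prop) (N : ℕ) (l : List (Ce G)) (i k : ℕ),
  Rn R N l i k → ∀ p q : List (Ce G), ns l → ns p → ns q → p.length = i → q.length = k →
    MM R (p ++ .s :: (l.flatMap (bk N) ++ q))

/-- RNF (about 60 lines).  Runs of the first pass.

Proof.  Induction on `Rn R N L i j` for all `l`.  `nil`: `l = []`, `k = 0`.  `one A d L' ..`: `l = z :: l'`, `A = a1 z`: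
`z = some x`: `Sh (a x) d` gives `d = 1`: `Fo.skip`; `z = none`: `d = 0`.  `two x y u v ..`: `l = z :: l₁`,
`l₁.map a1 = u ++ a y :: v` (`List.map_eq_append_iff`, `List.map_eq_cons_iff`): `l₁ = u' ++ z' :: v'`,
`z = some x`, `z' = some y`: `Fo.wrap`.  Hypotheses: none. -/
def StRNF : Prop := ∀ (G : Type) (R : G → G → Prop) (N : ℕ) (L : List (Ce G)) (i j : ℕ),
  Rn R N L i j → ∀ l : List (Option G), L = l.map a1 →
    ∃ k, Fo R (l.filterMap id) k ∧ j = i + k

/-- RNG (about 100 lines).  Runs of the first pass, converse.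

Proof.  Leading `none`: if `Rn R N (l.map a1) i j` and `i < N` then `Rn R N ((l₀ ++ l).map a1) i j` for every list
`l₀` of `none` (induction on `l₀`, `Rn.one` with `nop`).  Induction on `Fo R w k` for all `l`, `i`.  `nil`: all
elements of `l` are `none`.  `skip x w k`: `l = l₀ ++ some x :: l₁` (`List.filterMap_eq_cons_iff`), the elements of
`l₀` are `none`, `l₁.filterMap id = w`: `Rn.one` with `un x`, `j = i + 1 < N`.  `wrap x y u v j k`: `l = l₀ ++ some x :: l₁`
and `l₁.filterMap id = u ++ y :: v`, so `l₁ = l₂ ++ some y :: l₃` with `l₂.filterMap id = u`, `l₃.filterMap id = v`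
(`List.filterMap_eq_append_iff`, `List.filterMap_eq_cons_iff`): `Rn.two`, `i + j < N` because `j ≤ u.length`
(`fo_le`) and `u.length ≤ l₂.length` (`List.length_filterMap_le`).  Hypotheses: none. -/
def StRNG : Prop := ∀ (G : Type) (R : G → G → Prop) (N : ℕ) (w : List G) (k : ℕ), Fo R w k →
  ∀ (l : List (Option G)) (i : ℕ), l.filterMap id = w → i + l.length < N →
    Rn R N (l.map a1) i (i + k)

/-- RNB (about 80 lines).  Runs of the second pass.

Proof.  First without the two `c`: `Rn R N (l.map a2) i j ↔ j ≤ i ∧ i + (l.filterMap id).length ≤ j + l.length` for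
`i < N`, by induction on `l` for all `i`.  (→) cases on `Rn`: `two` is impossible (`a2 z` is never `a x`); `some`:
`A = c`, `d = 0`; `none`: `A = b`, `d = -1` or `d = 0`.  (←) `some`: `Rn.one` with `nop`; `none`: if `j < i` then
`bu` (`i - 1`), if `j = i` then `bu0`.  The two `c`: `nop` twice.  Hypotheses: none. -/
def StRNB : Prop := ∀ (G : Type) (R : G → G → Prop) (N : ℕ) (l : List (Option G)) (i j : ℕ),
  i < N → (Rn R N (.c :: .c :: l.map a2) i j ↔
    j ≤ i ∧ i + (l.filterMap id).length ≤ j + l.length)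

/-- RNC (about 60 lines).  Concatenation of runs.

Proof.  (→) Induction on `Rn R N L i k` for all `L₁` with `L = L₁ ++ L₂`; if `L₁ = []` take `j = i`.  `one`: `L₁ = A :: L₁'`:
induction.  `two x y u v ..`: `L₁ = a x :: L₁'` and `u ++ a y :: v = L₁' ++ L₂`; `a y ∉ L₂`, so
`L₁' = u ++ a y :: v'`, `v = v' ++ L₂` (`List.append_eq_append_iff`): induction for `v`.
(←) Induction on `Rn R N L₁ i j`.  Hypotheses: none. -/
def StRNC : Prop := ∀ (G : Type) (R : G → G → Prop) (N : ℕ) (L₁ L₂ : List (Ce G)) (i k : ℕ),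
  (∀ y, Ce.a y ∉ L₂) → (Rn R N (L₁ ++ L₂) i k ↔ ∃ j, Rn R N L₁ i j ∧ Rn R N L₂ j k)

/-- THU (about 70 lines).  The reduction.

Proof.  Let `N = w.length + 2`.  `Wd w = [] ++ s :: ((acts w).flatMap (bk N) ++ [])`, `ns (acts w)`.  hMMD, hMMC with
`p = q = []`: `MM R (Wd w) ↔ Rn R N (acts w) 0 0`.  hRNC with `L₁ = w.map a1`: `↔ ∃ j, Rn R N (w.map a1) 0 j ∧
Rn R N (c :: c :: w.reverse.map a2) j 0`.  hRNF, hRNG (`i = 0`): the first part says `Fo R (w.filterMap id) j`; then
`j ≤ w.length < N` (`fo_le`), and by hRNB the second part says `j + (w.filterMap id).length ≤ w.length`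
(`List.filterMap_reverse`).  Hypotheses: hMMD hMMC hRNF hRNG hRNB hRNC. -/
def StTHU : Prop := ∀ (G : Type) (R : G → G → Prop) (w : List (Option G)),
  MM R (Wd w) ↔ w ∈ TH R

/-- FNR (about 50 lines).  Finitely many rules.

Proof.  `Ce (Fin n)` is finite (an injective map to `Option (Option (Option (Fin n)))`).  The set is contained in
the union of the ranges of maps from finite types: `e0`, `m0`: one rule each; `e1`: pairs of cells; `e2`, `e3`:
cells; `m1`: `Ce × Fin 3 × Ce`; `m2`: `Fin n × Fin n × Ce × Ce` (`Set.finite_range`, `Set.Finite.union`,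
`Set.Finite.subset`, cases on `Rl`).  Hypotheses: none. -/
def StFNR : Prop := ∀ (n : ℕ) (R : Fin n → Fin n → Prop), {r | Rl R r}.Finite

/-- CFA (about 120 lines).  Derivations.

Proof.  `r ∈ (gM R h).rules ↔ Rl R r`.  Joining: `Pr g n₁ s u → Pr g n₂ t v → Pr g (n₁ + n₂) (s ++ t) (u ++ v)`
(induction on the first).  (1) First `d = 1`: `w = p ++ s :: q` with `p.length = q.length`, by induction on this
length: `p = []`, `q = []`: rule `e0`; `p = x :: p'`, `q = q' ++ [y]` (`List.eq_nil_or_concat` or
`List.dropLast`): rule `e1` with the induction hypothesis.  `d = 2`: `p = x :: p'`, rule `e2`.  `d = 0`: `q = q' ++ [y]`, rule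
`e3`.  (2) Induction on `MM R w`: rules `m0`, `m1`, `m2` (the `d` with `Sh A d` satisfies `d = -1, 0, 1`, so it is
`d'.val - 1` for `d' = 0, 1, 2`), `Pr.nont`, `Pr.term`, joining.  Hypotheses: none. -/
def StCFA : Prop := ∀ (G : Type) (R : G → G → Prop) (h : {r | Rl R r}.Finite),
  (∀ (d : Fin 3) (w : List (Ce G)), Ed ((d.val : ℤ) - 1) w →
    ∃ n, DR.Pr (gM R h) n [Symbol.nonterminal (Nt.E d)] w) ∧
  (∀ w : List (Ce G), MM R w → ∃ n, DR.Pr (gM R h) n [Symbol.nonterminal Nt.M] w)

/-- CFB (about 110 lines).  Derived words.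

Proof.  Let `Su [] w ↔ w = []`, `Su (terminal a :: s) w ↔ ∃ w₁, w = a :: w₁ ∧ Su s w₁`,
`Su (nonterminal A :: s) w ↔ ∃ u v, w = u ++ v ∧ Va R A u ∧ Su s v`.  Claim: `Pr (gM R h) n s w → Su s w`, by
induction on `Pr`; in the case `nont r s u v` the rule `r` satisfies `Rl R r`, and `Su r.output u` gives
`Va R r.input u`: cases on `Rl`: `e0`: `[s]` is in `Ed 0`; `e1`, `e2`, `e3`: one more cell at an end of the parts;
`m0`: `MM.e`; `m1`: `MM.one`; `m2`: `MM.two`.  Then `s = [nonterminal M]`.  See
`Pool/Agent/Helper5/NM/M_CFN.lean` for the same proof with another grammar.  Hypotheses: none. -/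
def StCFB : Prop := ∀ (G : Type) (R : G → G → Prop) (h : {r | Rl R r}.Finite) (n : ℕ)
  (w : List (Ce G)), DR.Pr (gM R h) n [Symbol.nonterminal Nt.M] w → MM R w

/-- CFM (about 30 lines).  The language of the words of cells is context-free.

Proof.  `g = gM R (hFNR n R)`; `w ∈ g.language ↔ g.Derives [nonterminal g.initial] (w.map terminal)` (definition),
`hPRS`, hCFA (2), hCFB.  Hypotheses: hFNR hCFA hCFB and `hPRS : DR.StPRS`. -/
def StCFM : Prop := ∀ (n : ℕ) (R : Fin n → Fin n → Prop),
  ∃ g : ContextFreeGrammar (Ce (Fin n)), ∀ w, w ∈ g.language ↔ MM R w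

/-! ## Part 3: the virtual tape -/

/-- CHB (about 120 lines).  The places of a block are connected.

Proof.  Let `m = w.length`.  For `t ≤ m`: `re (rp w t) = false`; `re (rp w (m + 1)) = true`; `(rp w t).1 = true` iff
`t = 0`; `(rp w i).1 = false`.  Steps: `(k p 0, i, t)` and `(k p 0, i, t + 1)` for `t ≤ m`; `(k p 0, i, m + 1)` and
`(k p 1, i, m + 1)`; `(k p 1, i, m + 1)` and `(k p 2, i, m + 1)`; `(k p 2, i, T + 1)` and `(k p 2, i, T)` for `T ≤ m`;
`(k p 2, i, 0)` and `(k p 3, i, 0)`: for each pair `stR w c = c'`, `stL w c' = c` by `simp` (`stR`, `stL`, `nx`, `pv`,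
`mv`, `rp`, `re`; cases of `p`).  The chain: for a list `(List.range (n + 1)).map f` with connected
neighbours `f t`, `f (t + 1)` (`t < n`) induction on `n` with `List.range_succ` and `chn_append`; the parts are
joined by `chn_append`.  Hypotheses: none. -/
def StCHB : Prop := ∀ (G : Type) (w : List (Option G)) (p : Bool) (i : ℕ), 1 ≤ i →
  i ≤ w.length + 1 → Chn w (cb w.length p i)

/-- CHN (about 120 lines).  All places are connected.

Proof.  Let `m = w.length`.  Joints: `(L, 0, 0)`, `(k true 3, 0, 0)`; `(k true 3, i, 0)`, `(k true 0, i + 1, 0)` for `i ≤ m`;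
`(k true 3, m + 1, 0)`, `(k false 0, m + 1, 0)`; `(k false 3, i + 1, 0)`, `(k false 0, i, 0)` for `i ≤ m` (for `i = 0` this
is the joint with the last place): `simp` as in CHB.  A block `cb m p i` begins with `(k p 0, i, 0)`
(`List.range (m + 2)` begins with `0`) and ends with `(k p 3, i, 0)`.  By induction on `n ≤ m + 1`:
`Chn w ((k true 3, 0, 0) :: (List.range n).flatMap ..)` and its last element is `(k true 3, n, 0)`; in the same way
for the second pass.  The last two statements: definitions.  Hypotheses: hCHB. -/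
def StCHN : Prop := ∀ (G : Type) (w : List (Option G)), Chn w (Cl w.length) ∧
  stR w (.k false 0, 0, 0) = (.k false 0, 0, 0) ∧ stL w (.L, 0, 0) = (.L, 0, 0)

/-- RDB (about 120 lines).  What is read on the virtual tape.

Proof.  Let `m = w.length`, `rr c = vr c.1 (rp w c.2.1) (rp w c.2.2)`.  For `1 ≤ i`:
`(cb m p i).map rr = (bk (m + 2) A).map (fun a => (false, some a))`, where `A` is `a1 o` (first pass) or `a2 o` (second pass)
if `w[i - 1]? = some o`, and `c` if `w[i - 1]? = none` (`List.map_append`; a map of `List.range n` with a constant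
value is `List.replicate n ..`: `List.map_const'`, `List.length_range`).  First pass:
`(List.range (m + 1)).map (action of i + 1) = w.map a1 ++ [c]` (`List.ext_getElem?` or `List.range_succ` and
`List.ext_getElem`); second pass: `(List.range (m + 1)).map (action of m + 1 - i) = c :: w.reverse.map a2`
(`List.getElem?_reverse`).  `flatMap` of a composition: `List.flatMap_map` or induction on the list.  The first
place `L` reads `(true, some s)`, the place `(k true 3, 0, 0)` reads `(false, some s)`, the last place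
`(false, none)`.  Hypotheses: none. -/
def StRDB : Prop := ∀ (G : Type) (w : List (Option G)),
  (Cl w.length).map (fun c => vr c.1 (rp w c.2.1) (rp w c.2.2)) =
    (true, some Ce.s) :: ((Wd w).map (fun a => (false, some a)) ++ [(false, none)])

/-- SIV (about 150 lines).  The simulation on the virtual tape.

Proof.  `Q`, `H`, `δ`, `q₀`, `acc` for `K`.  New automaton: states `Q × (H → Ki)`, heads `H × Bool`, transition `dv δ`, start
`(q₀, fun _ => L)`, accepting `{q | q.1 ∈ acc}`.  Let `W = Wd w`; `(Cl m).length = W.length + 2` (hRDB, lengths).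
Invariant, by induction on `n`: if `(q, pos) = (sth δ W)^[n] (q₀, 0)` and
`((q', κ), x) = (sth (dv δ) w)^[n] ((q₀, L), 0)` then `q' = q` and for all `h`:
`(Cl m)[pos h]? = some (κ h, x (h, true), x (h, false))`.  Start: `(Cl m)[0]? = some (L, 0, 0)`.  Reading: hRDB at the
index `pos h` gives `vr (κ h) (rp w ..) (rp w ..) = (decide (pos h = 0), W[pos h - 1]?)` (index `0`: `(true, some s)`, and
`W[0]? = some s`; index `v + 1 ≤ W.length`: `(false, some W[v])`; index `W.length + 1`: `(false, none)`), so both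
automata make the same choice.  Moves: `0`: `pos h = 0`: the place is `(L, 0, 0)`, `stL` does not change it (hCHN);
`pos h = v + 1`: `chn_get`.  `1`: nothing.  `2`: `pos h = W.length + 1`: the place is the last one `(k false 0, 0, 0)`,
`stR` does not change it; otherwise `chn_get`.  (`mv w.length` is the motion of the heads in `sth`.)
Hypotheses: hCHN hRDB. -/
def StSIV : Prop := ∀ (G : Type) (K : Set (List (Ce G))), InH K →
  InH {w : List (Option G) | Wd w ∈ K}

/-- UPA (about 30 lines).  The upper bound.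

Proof.  hCFM: `g`; the hypothesis for `α = Ce (Fin n)` (a `Fintype` instance from `Fintype.ofFinite`; `Ce (Fin n)` is
finite, see FNR) gives `InL {W | MM R W}`; hHED; hSIV; `{w | Wd w ∈ {W | MM R W}} = TH R` by hTHU; hHED.
Hypotheses: hCFM hTHU hSIV and `hHED : DI.StHED`. -/
def StUPA : Prop := (∀ (α : Type) [Fintype α] (g : ContextFreeGrammar α),
    DR.InL {w | w ∈ g.language}) →
  ∀ (n : ℕ) (R : Fin n → Fin n → Prop), DR.InL (TH R)

/-! ## Part 4: complete multipartite graphs -/

/-- CNL (about 150 lines).  Comparison of two numbers.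

Proof.  As `Pool/Agent/Helper74/DI/M_CTM.lean`.  Heads `J`, `A`, `B` (`Fin 3`), states: phase in `Fin 5` and a parity
(`Bool`).  Phase `0`: `J` right, go to phase `1`, parity `false`.  Phase `1`, parity `b`, letter under `J`: `some a`: `J`
right, `A` right if `P a`, `B` right if `N a`, parity `!b`; `none`: `A` right if `e && b`, go to phase `2`.  Phase `2`: if `A` is
at `0` go to phase `3`; otherwise, if `B` is at `0` go to phase `4`; otherwise `A` left, `B` left.  Phases `3`
(accepting) and `4`: stay.  After phase `1`: `A = w.countP P + (if e then w.length % 2 else 0) ≤ w.length + 1`,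
`B = w.countP N`.  Phase `2` reaches phase `3` iff `A ≤ B`.  Hypotheses: none. -/
def StCNL : Prop := ∀ (α : Type) (P N : α → Bool) (e : Bool),
  InH {w : List α | w.countP P + (if e then w.length % 2 else 0) ≤ w.countP N}

/-- COL (about 60 lines).  Colours.

Proof.  `act x = decide (∃ y, Γ.Adj x y)`; `col x` = the least active `y : Fin n` (as a natural number) with
`¬ Γ.Adj x y`, or `n` if there is none (for an active `x` the vertex `x` itself is such a `y`).  Let `x`, `y` be
active.  If `¬ Adj x y` then `¬ Adj x z ↔ ¬ Adj y z` for all active `z`: if `Adj y z` and `¬ Adj x z` then `x` is not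
isolated and not adjacent to an end of the edge `y z`: contradiction to `CM Γ`; so `col x = col y`.  If
`col x = col y` then some active `c` is adjacent to neither `x` nor `y`, so `¬ Adj x y` by `CM Γ`.
Hypotheses: none. -/
def StCOL : Prop := ∀ (n : ℕ) (Γ : SimpleGraph (Fin n)), CM Γ →
  ∃ (act : Fin n → Bool) (col : Fin n → ℕ), ∀ x y, Γ.Adj x y ↔ Rc act col x y

/-- LOW (about 60 lines).  Lower bounds for the number of unmatched letters.

Proof.  Induction on `Fo`.  `skip`: every count increases by at most one, the right sides by one or two.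
`wrap x y u v`: `x`, `y` are active and of different colours: the first count does not change, the second
increases by at most one (`List.countP_append`, `List.countP_cons`).  Hypotheses: none. -/
def StLOW : Prop := ∀ (G : Type) (act : G → Bool) (col : G → ℕ) (l : List G) (j : ℕ),
  Fo (Rc act col) l j → l.countP (fun x => !act x) ≤ j ∧
    (∀ c : ℕ, 2 * l.countP (fun x => !act x || decide (col x = c)) ≤ l.length + j) ∧
    (l.length + j) % 2 = 0

/-- DEL (about 60 lines).  Deletion of some letters of one kind.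

Proof.  Induction on `l` for all `r`.  `r = 0`: `l' = l`.  `l = x :: t`, `r = s + 1`: if `P x`: the induction hypothesis for
`t` and `s` (`P' x` is false for every such `P'`), `l' = t'`; otherwise the induction hypothesis for `t` and `r`,
`l' = x :: t'`.  Hypotheses: none. -/
def StDEL : Prop := ∀ (G : Type) (P : G → Bool) (l : List G) (r : ℕ), r ≤ l.countP P →
  ∃ l' : List G, l'.Sublist l ∧ l'.length + r = l.length ∧ l'.countP P + r = l.countP P ∧
    ∀ P' : G → Bool, (∀ x, P' x = true → P x = false) → l'.countP P' = l.countP P'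

/-- MXC (about 50 lines).  Perfect matchings of different colours.

Proof.  `v = l.map fun x => some (col x)`: `v.count (some c) = l.countP (fun x => decide (col x = c))`, so hMAJ gives
`NC DI.Dc v`.  Claim: `NC DI.Dc z` implies `NC (Rc act col) l` for all `l` with `z = l.map ..` and all letters active,
by induction (`List.map_eq_cons_iff`, `List.map_eq_append_iff`); `Dc (some a) (some b)` iff `a ≠ b`.
Hypotheses: `hMAJ : DI.StMAJ`. -/
def StMXC : Prop := ∀ (G : Type) (act : G → Bool) (col : G → ℕ) (l : List G),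
  (∀ x ∈ l, act x = true) → Even l.length →
  (∀ c : ℕ, 2 * l.countP (fun x => decide (col x = c)) ≤ l.length) → NC (Rc act col) l

/-- UPB (about 120 lines).  The lower bounds are attained.

Proof.  `l₀ = l.filter act`, `m = l₀.length`, `I = l.countP (fun x => !act x)`, `l.length = I + m`; let `M c` be the
number of letters of `l₀` of colour `c`; `l.countP (fun x => !act x || decide (col x = c)) = I + M c`.
(i) Some `c` has `2 * M c > m`: hDEL for `l₀`, `P x = decide (col x = c)`, `r = 2 * M c - m ≤ M c`: `l'` has length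
`2 * (m - M c)`, `m - M c` letters of colour `c`, and `M c' ≤ m - M c` letters of colour `c' ≠ c`
(`P' x = decide (col x = c')`).  hMXC, hSUB: `Fo l j` with `j = I + 2 * M c - m`, which is at most `k` because
`2 * (I + M c) ≤ I + m + k`.
(ii) `2 * M c ≤ m` for all `c` and `m` even: `l' = l₀`, `j = I ≤ k`.
(iii) `2 * M c ≤ m` for all `c` and `m` odd: `l₀ = x :: t`, `l' = t`: `2 * M c ≤ m - 1`; `j = I + 1`; the first condition
gives `I ≤ k`, and if `I = k` then `l.length + k = 2 * k + m` is odd and `I + 1 ≤ k`, so `I + 1 ≤ k` in all cases.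
(The sublist of `l₀` is a sublist of `l`: `List.filter_sublist`.)  Hypotheses: hDEL hMXC hSUB. -/
def StUPB : Prop := ∀ (G : Type) (act : G → Bool) (col : G → ℕ) (l : List G) (k : ℕ),
  l.countP (fun x => !act x) + (l.length + k) % 2 ≤ k →
  (∀ c : ℕ, 2 * l.countP (fun x => !act x || decide (col x = c)) ≤ l.length + k) →
  ∃ j, j ≤ k ∧ Fo (Rc act col) l j

/-- EAS (about 120 lines).  The easy languages.

Proof.  hCOL: `act`, `col`; `Γ.Adj = Rc act col` (`funext`, `propext`).  Let `l = w.filterMap id`, `k = w.length - l.length`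
(the number of signs, `l.length ≤ w.length`).  `w ∈ TH` iff (A) `I + w.length % 2 ≤ k` and (B) for all `c`:
`2 * l.countP (inactive or colour c) ≤ w.length`.  (→) hLOW for `j ≤ k`: if `j = k` then `w.length = l.length + k` is
even; if `j < k` then `I + 1 ≤ k`.  (←) hUPB.  (A) is `w.countP PA + w.length % 2 ≤ w.countP NA`,
`PA o` iff `o = some x` with `x` inactive, `NA o` iff `o = none` (`List.countP_filterMap`, or induction on `w`);
(B) for `c` is `w.countP PB ≤ w.countP (not PB)`, `PB o` iff `o = some x` with `x` inactive or `col x = c`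
(`List.length_eq_countP_add_countP`).  For `c` not in `F = Finset.univ.image col`, (B) follows from (A):
`2 * I ≤ I + k ≤ w.length`.  hCNL, hFIN, hINT, hHED.  Hypotheses: hCOL hLOW hUPB hCNL and
`hFIN : DI.StFIN`, `hINT : DI.StINT`, `hHED : DI.StHED`. -/
def StEAS : Prop := ∀ (n : ℕ) (Γ : SimpleGraph (Fin n)), CM Γ → DR.InL (TH Γ.Adj)

/-! ## Part 5: hardness -/

/-- OPF (about 100 lines).  Mandatory negative letters and counting.

Proof.  (→) Induction on `OP v`: there is `k` with `Fo .. k` and `k + 2 * ng v = v.length`.  `skip x v`: `x.2 = true` by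
`QW`, `Fo.skip`.  `wrap x o o' u v`: exactly one of `x`, `iv x` is negative.  (←) Claim: `Fo .. z k` implies, for all
`v` with `z = v.map Prod.fst` and `QW v`: `v.length ≤ k + 2 * ng v`, and `OP v` if `v.length = k + 2 * ng v`.
Induction on `Fo`.  `skip x z k`: `v = (x, o) :: v'`; `x` positive: `o = true`, `ng v = ng v'`: `OP.skip`; `x` negative:
`ng v = ng v' + 1`, so `v.length < (k + 1) + 2 * ng v`.  `wrap x y p q i j`: `y = iv x`,
`v = (x, o) :: (v₁ ++ (y, o') :: v₂)` (`List.map_eq_cons_iff`, `List.map_eq_append_iff`),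
`ng v = ng v₁ + ng v₂ + 1`: `OP.wrap`.  Hypotheses: none. -/
def StOPF : Prop := ∀ (Λ : Type) (v : List ((Λ × Bool) × Bool)), QW v →
  (OP v ↔ ∃ k, Fo (fun a b : Λ × Bool => b = iv a) (v.map Prod.fst) k ∧
    k + 2 * ng v ≤ v.length)

/-- PDA (about 80 lines).  Supplies with a new label.

Proof.  (→) Induction on `OP w`; the additional letters `((0, true), true)` are optional: `OP.skip`; `wrap x o o' u v`
with `E = []` or `E = [((0, true), true)]` after each of the two letters: `OP.wrap` around `E ++ U`, then `E' ++ V`.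
(←) Claim: if `OP z` and every letter of `z` with the label `0` is `((0, true), true)` then
`OP (z.filter fun a => decide (a.1.1 ≠ 0))`: induction on `OP z`: `skip`; `wrap x ..` with `x.1 = 0`: impossible, because
`iv x` would be positive too; otherwise `List.filter_append`, `OP.wrap`.  For `z = w.flatMap pd` the filtered word is
`w.map (rl fun i => i + 1)`: hREL.  Hypotheses: `hREL : WB.StREL`. -/
def StPDA : Prop := ∀ w : List ((ℕ × Bool) × Bool), OP w ↔ OP (w.flatMap pd)

/-- KKT (about 120 lines).  Words over two labels and signs.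

Proof.  Let `v = (w.flatMap pd).flatMap q2` (`= w.flatMap fun a => (pd a).flatMap q2`, `List.flatMap_assoc`) and `σ` the
number of supplies of `w` (letters with `a.1.2 = true`).  (1) `(w.flatMap (kk g)).filterMap id = v.map fun b => g b.1`.
(2) `(w.flatMap (kk g)).length = v.length + σ`.  (3) `v.length = 2 * ng v + σ`: a supply with the label `i` gives
`i + 1` negative and `i + 2` positive letters, a demand gives `i + 2` negative and `i + 2` positive letters.
(1)-(3): induction on `w` (`List.length_replicate`, `List.countP_replicate`).  (4) `QW (w.flatMap pd)`, `QW v`.  Hence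
`w.flatMap (kk g) ∈ TH R` iff there is `k` with `Fo R ((v.map Prod.fst).map g) k`, `k ≤ σ`, that is
`k + 2 * ng v ≤ v.length`; hGMA, hOPF: iff `OP v`; hQ2A, hQ2B: iff `OP (w.flatMap pd)`; hPDA: iff `OP w`.
Hypotheses: hOPF hPDA hGMA and `hQ2A : DI.StQ2A`, `hQ2B : DI.StQ2B`. -/
def StKKT : Prop := ∀ (G : Type) (R : G → G → Prop) (g : Bool × Bool → G),
  (∀ a b, R (g a) (g b) ↔ b = iv a) → (∀ a, kk g a ≠ []) ∧
    ∀ w : List ((ℕ × Bool) × Bool), QW w → (OP w ↔ w.flatMap (kk g) ∈ TH R)

/-- RTA (about 60 lines).  All words with optional letters.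

Proof.  Let `e : Λ × Bool → ℕ` be injective (`exists_injective_nat`), `k a = ((enc a).map (rl e)).flatMap (kk g)`.
`OP w ↔ OP (w.flatMap enc)` (hENC) `↔ OP ((w.flatMap enc).map (rl e))` (hREL) `↔ ..` (hKKT; `QW` holds because `enc`
gives optional positive and mandatory negative letters).  See `Pool/Agent/Helper15/DI/M_TPR.lean`.
Hypotheses: hKKT and `hENC : WB.StENC`, `hREL : WB.StREL`. -/
def StRTA : Prop := ∀ (G : Type) (R : G → G → Prop),
  (∃ g : Bool × Bool → G, ∀ a b, R (g a) (g b) ↔ b = iv a) → RedT R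

/-- CFT (about 50 lines).  Context-free languages.

Proof.  As `Pool/Agent/Helper32/DI/M_CFR.lean`, with `RedT R` for `Λ = WB.Lb W`.
Hypotheses: `hNFM : DR.StNFM`, `hSIM : WB.StSIM`, `hCNT : WB.StCNT`. -/
def StCFT : Prop := ∀ (G : Type) (R : G → G → Prop), RedT R →
  ∀ (α : Type) [Finite α] (g : ContextFreeGrammar α),
    ∃ (u : List (Option G)) (h : α → List (Option G)), u ≠ [] ∧ (∀ a, h a ≠ []) ∧
      ∀ w : List α, w ≠ [] → (w ∈ g.language ↔ u ++ w.flatMap h ∈ TH R)

/-- CLG (about 50 lines).  Graphs which are not complete multipartite.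

Proof.  There are an edge `a b` and an edge `z t` with `z` adjacent to neither `a` nor `b`.
`One`: `(x, x', y, y') := (a, z, z, b)` (`z t`; `t z`; `a b`; not `a z`, not `z z`, not `z b`).  If `t` is adjacent to `a`:
`Three` with `(x, x', y, y') := (z, a, t, b)`; if `t` is adjacent to `b`: `(z, b, t, a)`; otherwise `T2K` with
`a`, `b`, `z`, `t`.  Hypotheses: none. -/
def StCLG : Prop := ∀ (G : Type) (Γ : SimpleGraph G), ¬ CM Γ →
  (DI.Three Γ.Adj ∧ DI.One Γ.Adj) ∨ T2K Γ.Adj

end Pool.Agent.Helper74.RN
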